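import Mathlib

/-! Project CAS (helper2): full negative answer to Q1 of MP_466bd8_al (continuous association schemes and property
(T2)).  All spaces are countable and discrete, so all topological conditions are empty and kernels and convolutions
are given by finitely supported weights. -/

namespace Q2.CS2

/-- a hypergroup on a discrete space; `c x y z = (δ_x * δ_y)({z})` -/
structure DHyp (D : Type) where
  c : D → D → D → ℝ
  nonneg : ∀ x y z, 0 ≤ c x y z
  fin : ∀ x y, (Function.support (c x y)).Finite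
  sum : ∀ x y, ∑ᶠ z, c x y z = 1
  assoc : ∀ x y z t, ∑ᶠ u, c x y u * c u z t = ∑ᶠ u, c y z u * c x u t
  e : D
  left : ∀ x z, c e x z = Set.indicator {x} (fun _ => (1 : ℝ)) z
  right : ∀ x z, c x e z = Set.indicator {x} (fun _ => (1 : ℝ)) z
  bar : D → D
  bar_bar : ∀ x, bar (bar x) = x
  mem_iff : ∀ x y, 0 < c x y e ↔ y = bar x
  bar_mul : ∀ x y z, c x y (bar z) = c (bar y) (bar x) z

/-- left Haar measure of a discrete hypergroup: `∫ (δ_h * δ_x)(f) dω(x) = ∫ f dω` -/
def IsHaar {D : Type} (H : DHyp D) (d : D → ℝ) : Prop :=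
  (∀ x, 0 < d x) ∧ ∀ h z, ∑ᶠ x, d x * H.c h x z = d z

/-- a continuous association scheme on discrete spaces, with partition map `π` and measure `w` on `X`;
`K x h y = K(x, h; {y})` -/
structure IsCAS {X D : Type} (K : X → D → X → ℝ) (π : X → X → D) (H : DHyp D) (w : X → ℝ) : Prop where
  nonneg : ∀ x h y, 0 ≤ K x h y
  fin : ∀ x h, (Function.support (K x h)).Finite
  sum : ∀ x h, ∑ᶠ y, K x h y = 1
  part : ∀ x h y, K x h y ≠ 0 ↔ π x y = h
  comp : ∀ h₁ h₂ x y, ∑ᶠ v, K x h₁ v * K v h₂ y = ∑ᶠ h, H.c h₁ h₂ h * K x h y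
  unit : ∀ x y, K x H.e y = Set.indicator {x} (fun _ => (1 : ℝ)) y
  pos : ∀ x, 0 < w x
  sym : ∀ h x y, w x * K x (H.bar h) y = w y * K y h x

/-- the partition map `π` is homogeneous: invariant bijections act transitively on each class -/
def Hom {X D : Type} (π : X → X → D) : Prop :=
  (∀ x y x' y', π x y = π x' y' → ∃ g : X ≃ X, (∀ u v, π (g u) (g v) = π u v) ∧ g x = x' ∧ g y = y') ∧
  (∀ x y, π x x = π y y) ∧ (∀ h, ∃ x y, π x y = h) ∧ ∀ x h, {y | π x y = h}.Finite

open Classical in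
/-- a point with `π default y = h` -/
noncomputable def pt {X D : Type} [Inhabited X] (π : X → X → D) (h : D) : X :=
  Classical.epsilon (fun y => π default y = h)

/-- size of the class -/
noncomputable def n {X D : Type} [Inhabited X] (π : X → X → D) (h : D) : ℝ :=
  (Set.ncard {y | π default y = h} : ℝ)

/-- reversed class -/
noncomputable def br {X D : Type} [Inhabited X] (π : X → X → D) (h : D) : D := π (pt π h) default

/-- number of triangles on `x, y` -/
noncomputable def tr {X D : Type} (π : X → X → D) (x y : X) (h₁ h₂ : D) : ℝ :=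
  (Set.ncard {v | π x v = h₁ ∧ π v y = h₂} : ℝ)

/-- the kernel: uniform distribution on the class -/
noncomputable def K {X D : Type} [Inhabited X] (π : X → X → D) (x : X) (h : D) (y : X) : ℝ :=
  Set.indicator {y | π x y = h} (fun _ => (n π h)⁻¹) y

/-- the convolution -/
noncomputable def c {X D : Type} [Inhabited X] (π : X → X → D) (h₁ h₂ h : D) : ℝ :=
  n π h * (n π h₁)⁻¹ * (n π h₂)⁻¹ * tr π default (pt π h) h₁ h₂

/-- **1**. Class sizes. Proof: `Hom` with `(x, x)`, `(y, y)` gives an invariant bijection with `g x = y`, it maps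
`{v | π x v = h}` onto `{v | π y v = h}`; nonempty: `h = π a b`, move `a` to `x`. -/
def S_1 : Prop := ∀ (X D : Type) [Inhabited X] (π : X → X → D), Hom π →
  (∀ x h, (Set.ncard {y | π x y = h} : ℝ) = n π h) ∧ (∀ h, 0 < n π h) ∧ (∀ h, π default (pt π h) = h) ∧
    ∀ x y, π x y = π x x → x = y

/-- **2**. Triangles and reversal depend only on the class (bijections as in 1). -/
def S_2 : Prop := ∀ (X D : Type) [Inhabited X] (π : X → X → D), Hom π →
  (∀ x y h₁ h₂, tr π x y h₁ h₂ = tr π default (pt π (π x y)) h₁ h₂) ∧ (∀ x y, br π (π x y) = π y x) ∧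
    (∀ h, br π (br π h) = h) ∧ ∀ x y h₁ h₂, {v | π x v = h₁ ∧ π v y = h₂}.Finite

/-- **3**. (Assume 1, 2.)  The kernel facts.  `∑ᶠ v, K x h₁ v * K v h₂ y = (n h₁)⁻¹ (n h₂)⁻¹ tr x y h₁ h₂`, and in
`∑ᶠ h, c h₁ h₂ h * K x h y` only `h = π x y` contributes. -/
def S_3 : Prop := ∀ (X D : Type) [Inhabited X] (π : X → X → D), Hom π →
  (∀ x h y, 0 ≤ K π x h y) ∧ (∀ x h, (Function.support (K π x h)).Finite) ∧ (∀ x h, ∑ᶠ y, K π x h y = 1) ∧
  (∀ x h y, K π x h y ≠ 0 ↔ π x y = h) ∧
  (∀ h₁ h₂ x y, ∑ᶠ v, K π x h₁ v * K π v h₂ y = (n π h₁)⁻¹ * (n π h₂)⁻¹ * tr π x y h₁ h₂) ∧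
  (∀ h₁ h₂ x y, ∑ᶠ h, c π h₁ h₂ h * K π x h y = (n π h₁)⁻¹ * (n π h₂)⁻¹ * tr π x y h₁ h₂) ∧
  ∀ x y, K π x (π default default) y = Set.indicator {x} (fun _ => (1 : ℝ)) y

/-- **4**. (Assume 1, 2, 3.)  `c` is a finitely supported probability.  Proof: `c h₁ h₂ h ≠ 0` implies that there is `v`
with `π default v = h₁`, `π v (pt h) = h₂`: finitely many `v`, for each finitely many `y = pt h`, and
`h = π default y`.  Sum: `∑_h c h₁ h₂ h = ∑_h ∑_{y : π default y = h} (n h₁)⁻¹ (n h₂)⁻¹ tr default y h₁ h₂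
= ∑_y ∑_v K default h₁ v * K v h₂ y = 1` (interchange; all sums are over finite sets). -/
def S_4 : Prop := ∀ (X D : Type) [Inhabited X] (π : X → X → D), Hom π →
  (∀ x y z, 0 ≤ c π x y z) ∧ (∀ x y, (Function.support (c π x y)).Finite) ∧ ∀ x y, ∑ᶠ z, c π x y z = 1

/-- **5**. (Assume 1, 2, 3, 4.)  Associativity.  Proof: let `b = pt t`, `o = default`.  By 3 (both formulas)
`∑_u c x y u * (∑_v K o u v * K v z b) = ∑_u c x y u * ∑_s c u z s * K o s b = ∑_u c x y u * c u z t * (n t)⁻¹`, and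
the left-hand side is `∑_v (∑_u c x y u * K o u v) * K v z b = ∑_v ∑_w K o x w * K w y v * K v z b`; in the same way
`∑_u c y z u * c x u t * (n t)⁻¹ = ∑_w K o x w * (∑_u c y z u * K w u b) = ∑_w ∑_v K o x w * K w y v * K v z b`.  All
sums are finite (supports finite), cancel `(n t)⁻¹ ≠ 0`. -/
def S_5 : Prop := ∀ (X D : Type) [Inhabited X] (π : X → X → D), Hom π →
  ∀ x y z t, ∑ᶠ u, c π x y u * c π u z t = ∑ᶠ u, c π y z u * c π x u t

/-- **6**. (Assume 1, 2.)  Neutral element and involution.  `π default v = π default default` iff `v = default`,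
`n (π default default) = 1`; `tr default default x y ≠ 0` iff some `v` has `π default v = x`, `π v default = y`, i.e.
`y = br x`. -/
def S_6 : Prop := ∀ (X D : Type) [Inhabited X] (π : X → X → D), Hom π →
  (∀ x z, c π (π default default) x z = Set.indicator {x} (fun _ => (1 : ℝ)) z) ∧
  (∀ x z, c π x (π default default) z = Set.indicator {x} (fun _ => (1 : ℝ)) z) ∧
  ∀ x y, 0 < c π x y (π default default) ↔ y = br π x

/-- **7**. (Assume 1, 2.)  With a modular function `w` (`w x` times the class size of `(y, x)` is symmetric):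
`c x y (br z) = c (br y) (br x) z`, and the kernel is symmetric with respect to `w`.  Proof: let `z = π a b`; the
set `{v | π b v = x ∧ π v a = y}` is `{v | π a v = br y ∧ π v b = br x}`; if it is empty both sides are 0, otherwise for
`v` in it `w b * n (br x) = w v * n x`, `w v * n (br y) = w a * n y`, `w b * n z = w a * n (br z)` (from the hypothesis
`w x * n (π y x) = w y * n (π x y)`), so `n (br z) * (n x)⁻¹ * (n y)⁻¹ = n z * (n (br x))⁻¹ * (n (br y))⁻¹`. -/
def S_7 : Prop := ∀ (X D : Type) [Inhabited X] (π : X → X → D) (w : X → ℝ), Hom π → (∀ x, 0 < w x) →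
  (∀ x y, w x * n π (π y x) = w y * n π (π x y)) →
  (∀ x y z, c π x y (br π z) = c π (br π y) (br π x) z) ∧
  ∀ h x y, w x * K π x (br π h) y = w y * K π y h x

/-! ### The example -/

/-- vertices: `(m, S)`, `S` a finite set of integers `< m` -/
def V : Type := {x : ℤ × Finset ℤ // ∀ i ∈ x.2, i < x.1}

/-- classes: `(k, U)`, `U` a finite set of integers `< min 0 k` -/
def E : Type := {x : ℤ × Finset ℤ // ∀ i ∈ x.2, i < 0 ∧ i < x.1}

instance : Inhabited V := ⟨⟨(0, ∅), by simp⟩⟩

/-- the partition map: `((m, S), (m', S')) ↦ (m' - m, {i - m | i ∈ S Δ S', i < m, i < m'})` -/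
def Pi (x y : V) : E :=
  ⟨(y.1.1 - x.1.1, ((symmDiff x.1.2 y.1.2).filter (fun i => i < x.1.1 ∧ i < y.1.1)).image (fun i => i - x.1.1)), by
    intro i hi
    simp only [Finset.mem_image, Finset.mem_filter] at hi
    obtain ⟨j, ⟨_, h1, h2⟩, rfl⟩ := hi
    exact ⟨by linarith, by simp only; linarith⟩⟩

/-- **8**. `Pi` is homogeneous.  Proof: for a finite set `T` of integers and `k : ℤ` the map
`(m, S) ↦ (m + k, ((S Δ T) restricted to i < m) shifted by k)` is a bijection of `V` that leaves `Pi` invariant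
(inverse: the same with `-k` and `T` shifted by `k`; note that `i ↦ i ∈ S Δ S'` for `i < m, m'` does not change).  If
`Pi x y = Pi x' y'`: take `k = m(x') - m(x)` and choose `T` with `x ↦ x'` and `y ↦ y'`: on `i < m(x)` put
`T = S_x Δ (S_x' shifted by -k)`; on `m(x) ≤ i < m(y)` (if any) put `T = S_y Δ (S_y' shifted by -k)`; that `y ↦ y'` on
`i < m(x)` follows from `Pi x y = Pi x' y'`.  Classes: `(k, U) = Pi (0, ∅) (k, U)`.  Finiteness: `y = (m + k, S')` with
`S'` determined on `i < min m (m + k)` and arbitrary on the finitely many `m ≤ i < m + k`. -/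
def S_8 : Prop := Hom Pi

/-- **9**. Class sizes of the example: `n (Pi x y) = 2 ^ (m(y) - m(x))` if `m(x) ≤ m(y)`, and 1 otherwise.  (May
assume `S_8`, `S_1`: then only `x = default` is needed, or count directly `{y | Pi default y = h}`: the subsets of
`{i | 0 ≤ i < k}` for `h = (k, U)`.) -/
def S_9 : Prop := ∀ x y : V,
  n Pi (Pi x y) = if x.1.1 ≤ y.1.1 then (2 : ℝ) ^ (y.1.1 - x.1.1).toNat else 1

/-- **10**. The example has no kernel with (T2).  Proof: `h = (-1, ∅)`: for every `x = (m, S)` the only `y` with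
`Pi x y = h` is `p x = (m - 1, S \ {m - 1})`.  So `K x h (p x) = 1` (`fin`, `sum`, `part`), and `d h = w (p x)` by the last
hypothesis.  Every `v ∈ V` is `p x` for some `x` (`x = (m + 1, S)`), so `w v = d h` for all `v`.  By `sym` with this
`h`, `y := x`, `x := p x`: `w (p x) * K (p x) (bar h) x = w x * K x h (p x) = w x`, so `K (p x) (bar h) x = 1`.  But
`(m, S)` is `p x` for two different `x`: `(m + 1, S)` and `(m + 1, S ∪ {m})`; then the sum over `y` of
`K (m, S) (bar h) y` is `≥ 2`, contradicting `sum` and `nonneg`. -/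
def S_10 : Prop := ∀ (K' : V → E → V → ℝ) (H : DHyp E) (w w' : V → ℝ) (d : E → ℝ), IsCAS K' Pi H w' →
  (∀ x, 0 < w x) → (∀ h x y, w x * K' x (H.bar h) y = w y * K' y h x) →
  ¬ ∀ x y, d (Pi x y) * K' x (Pi x y) y = w y

end Q2.CS2
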