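import Mathlib
import Pool.Agent.Q2.CS2.Stm

namespace Q2.CS2.Asm

open Q2.CS2

/-- the hypergroup of a homogeneous partition map with modular function -/
noncomputable def hyp {X D : Type} [Inhabited X] (π : X → X → D) (hπ : Hom π) (w : X → ℝ)
    (hw : ∀ x, 0 < w x) (hn : ∀ x y, w x * n π (π y x) = w y * n π (π x y))
    (s2 : S_2) (s4 : S_4) (s5 : S_5) (s6 : S_6) (s7 : S_7) : DHyp D where
  c := c π
  nonneg := (s4 X D π hπ).1
  fin := (s4 X D π hπ).2.1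
  sum := (s4 X D π hπ).2.2
  assoc := s5 X D π hπ
  e := π default default
  left := (s6 X D π hπ).1
  right := (s6 X D π hπ).2.1
  bar := br π
  bar_bar := (s2 X D π hπ).2.2.1
  mem_iff := (s6 X D π hπ).2.2
  bar_mul := (s7 X D π w hπ hw hn).1

theorem cas {X D : Type} [Inhabited X] (π : X → X → D) (hπ : Hom π) (w : X → ℝ)
    (hw : ∀ x, 0 < w x) (hn : ∀ x y, w x * n π (π y x) = w y * n π (π x y))
    (s2 : S_2) (s3 : S_3) (s4 : S_4) (s5 : S_5) (s6 : S_6) (s7 : S_7) :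
    IsCAS (K π) π (hyp π hπ w hw hn s2 s4 s5 s6 s7) w := by
  obtain ⟨k1, k2, k3, k4, k5, k6, k7⟩ := s3 X D π hπ
  refine ⟨k1, k2, k3, k4, ?_, k7, hw, (s7 X D π w hπ hw hn).2⟩
  intro h₁ h₂ x y
  rw [k5]
  exact (k6 h₁ h₂ x y).symm

noncomputable def wt (x : V) : ℝ := (2 : ℝ) ^ (- x.1.1)

theorem wt_pos (x : V) : 0 < wt x := zpow_pos (by norm_num) _

theorem wt_sym (s9 : S_9) (x y : V) : wt x * n Pi (Pi y x) = wt y * n Pi (Pi x y) := by
  rw [s9 y x, s9 x y]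
  unfold wt
  rcases lt_trichotomy x.1.1 y.1.1 with h | h | h
  · rw [if_neg (not_le.2 h), if_pos h.le, mul_one, ← zpow_natCast, ← zpow_add₀ (by norm_num : (2 : ℝ) ≠ 0),
      Int.toNat_of_nonneg (by omega)]
    congr 1
    ring
  · rw [if_pos h.ge, if_pos h.le, h]
  · rw [if_pos h.le, if_neg (not_le.2 h), mul_one, ← zpow_natCast, ← zpow_add₀ (by norm_num : (2 : ℝ) ≠ 0),
      Int.toNat_of_nonneg (by omega)]
    congr 1
    ring

end Q2.CS2.Asm
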