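import Mathlib
import Pool.Agent.Q2.CS2.Asm
import Pool.Agent.Q214.CS2.J14
import Pool.Agent.Q65.CS2_2
import Pool.Agent.Q222.CS2_3
import Pool.Agent.Q278.CS2.J5
import Pool.Agent.Q71.CS2_6
import Pool.Agent.Q71.CS2_7
import Pool.Agent.Q182.CS2_8
import Pool.Agent.Q144.CS_J9
import Pool.Agent.Q220.CS2_10

namespace Q2.CS2.Fin

open Q2.CS2

theorem s1 : S_1 := Pool.Agent.Q214.CS2.j1
theorem s2 : S_2 := Q65.CS2_2.j2 s1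
theorem s3 : S_3 := Q222.CS2_3.j3 s1 s2
theorem s4 : S_4 := Pool.Agent.Q214.CS2.j4 s1 s2 s3
theorem s5 : S_5 := Q278.CS2.j5 s1 s2 s3 s4
theorem s6 : S_6 := Q71.CS2_6.j6 s1 s2
theorem s7 : S_7 := Q71.CS2_7.j7 s1 s2
theorem s8 : S_8 := Q182.CS2_8.j8
theorem s9 : S_9 := Pool.Agent.Q144.CS.j9 s1 s8
theorem s10 : S_10 := Q220.CS2_10.j10

theorem exists_cas : ∃ (K : V → E → V → ℝ) (H : DHyp E) (w : V → ℝ), IsCAS K Pi H w :=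
  ⟨K Pi, Asm.hyp Pi s8 Asm.wt Asm.wt_pos (Asm.wt_sym s9) s2 s4 s5 s6 s7, Asm.wt,
    Asm.cas Pi s8 Asm.wt Asm.wt_pos (Asm.wt_sym s9) s2 s3 s4 s5 s6 s7⟩

end Q2.CS2.Fin
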